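import Pool.Agent.Helper93.PL.St2

/-!
# Project PL (MP_d466de_nt), module PD: Jensen's inequality for the limit law
-/

set_option autoImplicit false

namespace Pool.Agent.Helper34.PL

open Finset Filter Topology
open Pool.Agent.Helper61.PV Pool.Agent.Helper93.PL

private lemma pois_zero (y : ℝ) : pois 0 y = Real.exp (-y) := by
  unfold pois
  simp

private lemma pw_pos {w : ℕ} (p : Pw w) : (1 : ℝ) ≤ (p.1 : ℝ) := by
  have h : Nat.Prime p.1 := (Finset.mem_filter.1 p.2).2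
  exact_mod_cast h.one_lt.le

private lemma wgt_nonneg {w : ℕ} (n : Pw w → ℕ) :
    0 ≤ ∏ p : Pw w, bw p.1 (n p) / (1 - (1 / (p.1 : ℝ)) ^ p.1) := by
  refine Finset.prod_nonneg fun p _ => ?_
  have hp := pw_pos p
  have h0 : (0 : ℝ) ≤ 1 / (p.1 : ℝ) := by positivity
  have h1 : 1 / (p.1 : ℝ) ≤ 1 := by
    rw [div_le_one (by linarith)]
    exact hp
  refine div_nonneg ?_ ?_
  · unfold bw
    have h2 : (0 : ℝ) ≤ 1 - 1 / (p.1 : ℝ) := by linarith
    positivity
  · have h3 : (1 / (p.1 : ℝ)) ^ p.1 ≤ 1 := pow_le_one₀ h0 h1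
    linarith

/-- **Module PD.** -/
theorem hPd (hPa : StPa) : Pool.Agent.Helper93.PL.StPd := by
  intro w X θ _ hθ0 hθ1
  have hsum := hPa.2.1 w
  unfold Ec at hsum
  simp only [mul_one] at hsum
  have hJ := (Real.concaveOn_rpow hθ0.le hθ1).le_map_sum
    (t := Fintype.piFinset (fun p : Pw w => range p.1))
    (w := fun n => ∏ p : Pw w, bw p.1 (n p) / (1 - (1 / (p.1 : ℝ)) ^ p.1))
    (p := fun n => pois 0 (X * eu n)) (fun n _ => wgt_nonneg n) hsum
    (fun n _ => by
      rw [pois_zero]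
      exact (Real.exp_pos _).le)
  simp only [smul_eq_mul] at hJ
  have hL : LawW w 0 (θ * X) = ∑ n ∈ Fintype.piFinset (fun p : Pw w => range p.1),
      (∏ p : Pw w, bw p.1 (n p) / (1 - (1 / (p.1 : ℝ)) ^ p.1)) * pois 0 (X * eu n) ^ θ := by
    unfold LawW
    refine Finset.sum_congr rfl fun n _ => ?_
    rw [pois_zero, pois_zero, ← Real.exp_mul]
    congr 2
    ring
  rw [hL]
  exact hJ

end Pool.Agent.Helper34.PL
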